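import Pool.Agent.K9h96.LS.ALL

set_option autoImplicit false

/-!
# The estimate of Q1 for all data with spectrum in a cylinder over a sparse set, `p ≤ 4`

Let `d = m + 1 ≥ 2` and let `Γ` be a subset of `ℝ^(d-1)`. We consider all Schwartz data whose
Fourier transforms vanish outside `Γ × ℝ`; so nothing is assumed about the last frequency variable.

(1) Let `2 ≤ p ≤ 4` and let the lattice points `n ∈ (-R, R)^(d-1)` at distance less than `1` from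
`Γ` (in the maximum norm) form a `Λ(p)` set with constant at most `A R^θ` for all `R ≥ 1`. Then

`∫_1^2 ‖u(t)‖_p^p dt ≤ C A^p (‖u₀‖_{L^p_s}^p + ‖u₁‖_{L^p_{s-1}}^p)` for all `s > θ`,

with a constant `C` which depends on `d, p, θ, s` only.

(2) Let `2 < p ≤ 4`. If there are at most `A R^κ` such lattice points for all `R ≥ 1`, where
`0 ≤ κ ≤ d - 1 - 2/(p - 2)`, then the estimate of Q1 holds for all `σ < 1/p`:

`∫_1^2 ‖u(t)‖_p^p dt ≤ C A^((p-2)/2) (‖u₀‖_{L^p_{s_p-σ}}^p + ‖u₁‖_{L^p_{s_p-1-σ}}^p)`.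

The exponent `d - 1 - 2/(p - 2)` is nonnegative exactly for `p ≥ p_d = 2d/(d-1)`. For
`p ≥ 2(d+1)/(d-1)` Q1 is known for all data (Bourgain, Demeter), so the content of (2) is the range
`2d/(d-1) ≤ p < 2(d+1)/(d-1)`, `d ≥ 3`, which is contained in `p < 4`. For example, if `Γ` is a
`k`-dimensional surface in `ℝ^(d-1)` (with at most `A R^k` unit cubes in `(-R, R)^(d-1)`), then the
estimate of Q1 holds for all data with spectrum in `Γ × ℝ` and `2 + 2/(d-1-k) ≤ p ≤ 4`; this is less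
than `2(d+1)/(d-1)` for `k < (d-1)/2`.

The theorem `SparseSpectra` of the starting files is a fixed time estimate for data with spectrum
near a sparse set of `ℤ^d`; for the cylinder over `Γ` it needs `κ ≤ d - 2 - 2/(p - 2)`, so it has
one dimension less, and it is void for `p < 2 + 2/(d-2)`. The dimension is gained by local smoothing
in the last variable: at fixed time an estimate like (1) needs `s ≥ 1/2 - 1/p` if `Γ` is the union
of the unit balls about the points `2^k e₁`, where (1) has `θ = 0`.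

Proof. For a fixed frequency `η` of the first variables `y` the wave equation is the Klein-Gordon
equation on the line with mass `|η|`. The half wave operators with frequency at most `N` satisfy a
bilinear `L²` estimate for two arbitrary masses (phase `√((ζ/2+ξ)²+a²) + √((ζ/2-ξ)²+b²)`, convex with
one critical point), so an `L⁴(L²)` estimate for arbitrary families of masses with loss `log N`, and
`L^p_{t,x}(L²_y)` estimates without a power of `N` for `2 ≤ p ≤ 4`. By finite speed of propagation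
the same holds for the local energies in `y`, and on the unit scale in `y` the `L^p` norm is bounded
by the local energy with the loss `A R^θ`. Summation over the dyadic shells.

Co-authors of the parts: helper6, helper21, helper39, helper99; starting files of helper280, 496,
889, 73, 303 and others.
-/

open MeasureTheory Set
open scoped ENNReal FourierTransform RealInnerProductSpace SchwartzMap

namespace Pool.Agent.Results.MP_ee74d2_an.CylindricalSpectra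

/-- `ℝ^d` -/
abbrev E (d : ℕ) : Type := EuclideanSpace ℝ (Fin d)

/-- The inverse Fourier transform `∫ exp(2πi x·ξ) F(ξ) dξ`. -/
noncomputable def inv {d : ℕ} (F : E d → ℂ) (x : E d) : ℂ :=
  ∫ ξ : E d, Complex.exp (((2 * Real.pi * ⟪x, ξ⟫ : ℝ) : ℂ) * Complex.I) * F ξ

/-- The solution `u(t, x)` of the wave equation on `ℝ^d` with `u(0) = u₀`, `∂ₜu(0) = u₁`: the
inverse Fourier transform of `cos(2πt|ξ|) u₀^(ξ) + sin(2πt|ξ|)/(2π|ξ|) u₁^(ξ)`. -/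
noncomputable def wave {d : ℕ} (u₀ u₁ : 𝓢(E d, ℂ)) (t : ℝ) (x : E d) : ℂ :=
  inv (fun ξ => ((Real.cos (2 * Real.pi * t * ‖ξ‖) : ℝ) : ℂ) * 𝓕 (u₀ : E d → ℂ) ξ +
    ((Real.sin (2 * Real.pi * t * ‖ξ‖) / (2 * Real.pi * ‖ξ‖) : ℝ) : ℂ) * 𝓕 (u₁ : E d → ℂ) ξ) x

/-- The symbol `(1 + 4π²|ξ|²)^(a/2)` of `(I - Δ)^(a/2)`. -/
noncomputable def bessel {d : ℕ} (a : ℝ) (ξ : E d) : ℂ :=
  (((1 + 4 * Real.pi ^ 2 * ‖ξ‖ ^ 2) ^ (a / 2) : ℝ) : ℂ)

/-- `‖f‖^p` for the norm of `L^p_a`: the integral of `|(I - Δ)^(a/2) f|^p`. -/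
noncomputable def sobolev {d : ℕ} (a p : ℝ) (f : 𝓢(E d, ℂ)) : ℝ≥0∞ :=
  ∫⁻ x : E d, ‖inv (fun ξ => bessel a ξ * 𝓕 (f : E d → ℂ) ξ) x‖ₑ ^ p

/-- `S` is a `Λ(p)` set with constant `Λ`: for all finite subsets `T` of `S` and all coefficients,
`∫_{[0,1)^d} |∑_{m ∈ T} c_m exp(2πi x·m)|^p dx ≤ Λ^p (∑_{m ∈ T} |c_m|²)^(p/2)`. -/
def IsLambdaSet {d : ℕ} (p Λ : ℝ) (S : Set (Fin d → ℤ)) : Prop :=
  ∀ T : Finset (Fin d → ℤ), (T : Set (Fin d → ℤ)) ⊆ S → ∀ c : (Fin d → ℤ) → ℂ,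
    ∫⁻ x in {x : E d | ∀ i, x i ∈ Set.Ico (0 : ℝ) 1}, ‖∑ m ∈ T, c m *
      Complex.exp (((2 * Real.pi * ⟪x, WithLp.toLp 2 fun i => (m i : ℝ)⟫ : ℝ) : ℂ) *
        Complex.I)‖ₑ ^ p ≤
      ENNReal.ofReal (Λ ^ p) * (∑ m ∈ T, ‖c m‖ₑ ^ (2 : ℝ)) ^ (p / 2)

/-- The first `m` coordinates of a point of `ℝ^(m+1)`. -/
noncomputable def head {m : ℕ} (ζ : E (m + 1)) : E m := WithLp.toLp 2 fun i => ζ i.castSucc

/-- The lattice points at distance less than `1` from `Γ` in the maximum norm. -/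
def near {m : ℕ} (Γ : Set (E m)) : Set (Fin m → ℤ) := {n | ∃ ξ ∈ Γ, ∀ i, |ξ i - n i| < 1}

/-- The Fourier transform of `f` vanishes outside `Γ × ℝ`. -/
def SpectrumIn {m : ℕ} (Γ : Set (E m)) (f : 𝓢(E (m + 1), ℂ)) : Prop :=
  ∀ ζ : E (m + 1), 𝓕 (f : E (m + 1) → ℂ) ζ ≠ 0 → head ζ ∈ Γ

/-- **The estimate of Q1 for all data with spectrum in the cylinder `Γ × ℝ ⊂ ℝ^(m+1)`.** -/
theorem result (m : ℕ) (hm : 0 < m) :
    (∀ p θ s : ℝ, 2 ≤ p → p ≤ 4 → 0 ≤ θ → θ < s → ∃ C : ℝ, 0 < C ∧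
      ∀ (Γ : Set (E m)) (A : ℝ), 0 ≤ A →
      (∀ R : ℕ, 1 ≤ R → IsLambdaSet p (A * (R : ℝ) ^ θ) {n | n ∈ near Γ ∧ ∀ i, |n i| < R}) →
      ∀ u₀ u₁ : 𝓢(E (m + 1), ℂ), SpectrumIn Γ u₀ → SpectrumIn Γ u₁ →
        ∫⁻ t in Icc (1 : ℝ) 2, ∫⁻ x : E (m + 1), ‖wave u₀ u₁ t x‖ₑ ^ p ≤
          ENNReal.ofReal (C * A ^ p) * (sobolev s p u₀ + sobolev (s - 1) p u₁)) ∧
    ∀ p κ σ : ℝ, 2 < p → p ≤ 4 → 0 ≤ κ → κ ≤ m - 2 / (p - 2) → σ < 1 / p →
      ∃ C : ℝ, 0 < C ∧ ∀ (Γ : Set (E m)) (A : ℝ), 0 ≤ A →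
      (∀ (R : ℕ) (T : Finset (Fin m → ℤ)), 1 ≤ R → (∀ n ∈ T, n ∈ near Γ ∧ ∀ i, |n i| < R) →
        (T.card : ℝ) ≤ A * (R : ℝ) ^ κ) →
      ∀ u₀ u₁ : 𝓢(E (m + 1), ℂ), SpectrumIn Γ u₀ → SpectrumIn Γ u₁ →
        ∫⁻ t in Icc (1 : ℝ) 2, ∫⁻ x : E (m + 1), ‖wave u₀ u₁ t x‖ₑ ^ p ≤
          ENNReal.ofReal (C * A ^ ((p - 2) / 2)) *
            (sobolev ((m : ℝ) / 2 - m / p - σ) p u₀ +
              sobolev ((m : ℝ) / 2 - m / p - 1 - σ) p u₁) :=
  ⟨fun p θ s hp hp4 hθ hs => Pool.Agent.K9h96.LS.ALL.formA m hm p θ s hp hp4 hθ hs,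
    fun p κ σ hp hp4 hκ hκ2 hσ => Pool.Agent.K9h96.LS.ALL.formB m hm p κ σ hp hp4 hκ hκ2 hσ⟩

end Pool.Agent.Results.MP_ee74d2_an.CylindricalSpectra
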