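import Pool.Agent.K9h71.RC.Main
import Pool.Agent.K9h96.LS.ALL
import Pool.Agent.K9h71.RD.LPS
import Pool.Agent.K9h71.RD.CRD
import Pool.Agent.K9h71.RD.MZ

set_option autoImplicit false

/-!
# The estimate of Q1 for data randomised in `d - 1` frequency variables only

Write `d = m + 1` and `ζ = (ξ, η)`, `ξ ∈ ℝ^m`, `η ∈ ℝ`, for the frequencies. Let `φ` be a smooth
function with compact support on `ℝ^m` (for instance one with `∑_k φ(ξ - k) = 1`, `k ∈ ℤ^m`), let `ℤ^m`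
be partitioned into blocks `{b = n}`, `n ∈ ℕ`, and let `g_0, g_1, …` be independent complex random
variables with mean `0` and `E|g_n|^p ≤ 1`. The Fourier transform of a Schwartz function `f` on `ℝ^d` is
multiplied by

`∑_k g_{b(k)}(ω) φ(ξ - k)`, `k ∈ ℤ^m`,

so nothing is randomised in the last variable: all the frequencies `(ξ, η)`, `η ∈ ℝ`, with `ξ` in one
unit cell (or in the cells of one block) get the same random coefficient. Let `u^ω` be the solution of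
the wave equation with the data `u₀^ω, u₁^ω`.

**(1)** Let `2 ≤ p ≤ 4`. If for all `R ≥ 1` the part of each block in `(-R, R)^m` is a `Λ(p)` set with
constant at most `A R^θ`, `θ < s`, then

`E ∫_0^2 ‖u^ω(t)‖_p^p dt ≤ C A^p (‖u₀‖_{L^p_s}^p + ‖u₁‖_{L^p_{s-1}}^p)`,

with `C = C(d, p, θ, s, φ)`. For single cells as blocks one may take `θ = 0`, so that there is no loss
of derivatives at all.

**(2)** In particular the estimate of Q1 holds in the mean for `d ≥ 2`, `2d/(d-1) ≤ p ≤ 4`, `σ < 1/p`, if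
each block has at most `A R^κ` points in `(-R, R)^(d-1)`, where `0 ≤ κ ≤ d - 1 - 2/(p - 2)`. (For `d ≥ 3`
this includes all the exponents `2d/(d-1) ≤ p < 2(d+1)/(d-1)` for which the estimate is open.) For data
randomised in all `d` variables, at fixed times, the same bound for `κ` is admissible for blocks in
`ℤ^d` (`RandomisedData`); here it is the bound for blocks in `ℤ^(d-1)`: one dimension of randomness less
is needed, `R^(2/(p-2))` instead of `R^(1+2/(p-2))` independent coefficients for the frequencies of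
size `R`.

Proof. By Khintchine's inequality one has to bound the `L^p` norm of the square function of the
blocks of `u`. For fixed `t` and `x_d` the function `u(t, ·, x_d)` is, near a point `w ∈ ℝ^m`, a
superposition of modulated trigonometric polynomials, and by Bessel's and Minkowski's inequalities the
`L^p` norm near `w` of its square function is at most the largest `Λ(p)` constant of the blocks times
the local `L²` norm at `w` (`Pool.Agent.K9h71.RD.t_llv` in dimension `m`). The local `L²` norms in the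
first `m` variables are integrated in `t`, `x_d` and `w` by helper96's theorem `S_ENL` (local smoothing
in `1 + 1` dimensions for functions with values in `L²(ℝ^m)`, i.e. for Klein-Gordon equations with
arbitrary masses, and finite speed of propagation), which loses only powers of `log R` for `p ≤ 4`. The
dyadic shells in `ℝ^d` are summed with the Bessel potentials.

Parts of the starting library used: project LS of helper303 with helper170, helper280, helper297,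
helper362, helper413, helper441, helper492, helper558, helper562, helper764, helper914. `S_ENL`:
helper96 with helper6, helper21, helper39, helper99. Khintchine's inequality: helper21. The rest:
helper71.
-/

open MeasureTheory ProbabilityTheory
open scoped ENNReal FourierTransform RealInnerProductSpace SchwartzMap

namespace Pool.Agent.Results.MP_ee74d2_an.RandomisedCylinders

/-- `ℝ^d` -/
abbrev E (d : ℕ) : Type := EuclideanSpace ℝ (Fin d)

/-- The inverse Fourier transform `∫ exp(2πi x·ξ) F(ξ) dξ`. -/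
noncomputable def inv {d : ℕ} (F : E d → ℂ) (x : E d) : ℂ :=
  ∫ ξ : E d, Complex.exp (((2 * Real.pi * ⟪x, ξ⟫ : ℝ) : ℂ) * Complex.I) * F ξ

/-- The solution `u(t, x)` of the wave equation on `ℝ^d` for which `F₀` and `F₁` are the Fourier
transforms of `u(0)` and `∂ₜu(0)`: the inverse Fourier transform of
`cos(2πt|ξ|) F₀(ξ) + sin(2πt|ξ|)/(2π|ξ|) F₁(ξ)`. -/
noncomputable def wave {d : ℕ} (F₀ F₁ : E d → ℂ) (t : ℝ) (x : E d) : ℂ :=
  inv (fun ξ => ((Real.cos (2 * Real.pi * t * ‖ξ‖) : ℝ) : ℂ) * F₀ ξ +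
    ((Real.sin (2 * Real.pi * t * ‖ξ‖) / (2 * Real.pi * ‖ξ‖) : ℝ) : ℂ) * F₁ ξ) x

/-- The symbol `(1 + 4π²|ξ|²)^(a/2)` of `(I - Δ)^(a/2)`. -/
noncomputable def bessel {d : ℕ} (a : ℝ) (ξ : E d) : ℂ :=
  (((1 + 4 * Real.pi ^ 2 * ‖ξ‖ ^ 2) ^ (a / 2) : ℝ) : ℂ)

/-- `‖f‖^p` for the norm of `L^p_a`: the integral of `|(I - Δ)^(a/2) f|^p`. -/
noncomputable def sobolev {d : ℕ} (a p : ℝ) (f : 𝓢(E d, ℂ)) : ℝ≥0∞ :=
  ∫⁻ x : E d, ‖inv (fun ξ => bessel a ξ * 𝓕 (f : E d → ℂ) ξ) x‖ₑ ^ p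

/-- `S` is a `Λ(p)` set with constant `Λ`: for all finite subsets `T` of `S` and all coefficients,
`∫_{[0,1)^m} |∑_{k ∈ T} c_k exp(2πi x·k)|^p dx ≤ Λ^p (∑_{k ∈ T} |c_k|²)^(p/2)`. -/
def IsLambdaSet {m : ℕ} (p Λ : ℝ) (S : Set (Fin m → ℤ)) : Prop :=
  ∀ T : Finset (Fin m → ℤ), (T : Set (Fin m → ℤ)) ⊆ S → ∀ c : (Fin m → ℤ) → ℂ,
    ∫⁻ x in {x : E m | ∀ i, x i ∈ Set.Ico (0 : ℝ) 1}, ‖∑ k ∈ T, c k *
      Complex.exp (((2 * Real.pi * ⟪x, WithLp.toLp 2 fun i => (k i : ℝ)⟫ : ℝ) : ℂ) *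
        Complex.I)‖ₑ ^ p ≤
      ENNReal.ofReal (Λ ^ p) * (∑ k ∈ T, ‖c k‖ₑ ^ (2 : ℝ)) ^ (p / 2)

/-- The points in `(-R, R)^m` of the block `n` of the partition of `ℤ^m` given by `b`. -/
def part {m : ℕ} (b : (Fin m → ℤ) → ℕ) (n R : ℕ) : Set (Fin m → ℤ) :=
  {k | b k = n ∧ ∀ i, |k i| < R}

/-- The first `m` coordinates of `ζ ∈ ℝ^(m+1)`. -/
noncomputable def head {m : ℕ} (ζ : E (m + 1)) : E m :=
  WithLp.toLp 2 fun i => ζ i.castSucc

/-- The Fourier transform of `f` times `∑_k a_{b(k)} φ(head ζ - k)`, `k ∈ ℤ^m`. -/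
noncomputable def randomised {m : ℕ} (φ : 𝓢(E m, ℂ)) (b : (Fin m → ℤ) → ℕ) (a : ℕ → ℂ)
    (f : 𝓢(E (m + 1), ℂ)) (ζ : E (m + 1)) : ℂ :=
  (∑' k : Fin m → ℤ, a (b k) * φ (head ζ - WithLp.toLp 2 fun i => (k i : ℝ))) *
    𝓕 (f : E (m + 1) → ℂ) ζ

/-- `g_0, g_1, …` are independent random variables with mean `0` and `E|g_n|^p ≤ 1`. -/
structure Coefficients {Ω : Type} [MeasurableSpace Ω] (P : Measure Ω) (p : ℝ)
    (g : ℕ → Ω → ℂ) : Prop where
  measurable : ∀ n, Measurable (g n)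
  indep : iIndepFun g P
  mean : ∀ n, ∫ ω, g n ω ∂P = 0
  moment : ∀ n, ∫⁻ ω, ‖g n ω‖ₑ ^ p ∂P ≤ 1

/-- **The estimate of Q1 for data randomised in the first `m = d - 1` frequency variables.** -/
theorem result :
    -- (1) blocks which are `Λ(p)` sets
    (∀ (m : ℕ) (p θ s : ℝ), 0 < m → 2 ≤ p → p ≤ 4 → 0 ≤ θ → θ < s →
      ∀ φ : 𝓢(E m, ℂ), HasCompactSupport (φ : E m → ℂ) →
      ∃ C : ℝ, 0 < C ∧ ∀ (b : (Fin m → ℤ) → ℕ) (A : ℝ), 0 ≤ A →
        (∀ n R : ℕ, 1 ≤ R → IsLambdaSet p (A * (R : ℝ) ^ θ) (part b n R)) →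
        ∀ (Ω : Type) [MeasurableSpace Ω] (P : Measure Ω) [IsProbabilityMeasure P]
          (g : ℕ → Ω → ℂ), Coefficients P p g →
        ∀ u₀ u₁ : 𝓢(E (m + 1), ℂ),
          ∫⁻ ω, (∫⁻ t in Set.Icc (0 : ℝ) 2, ∫⁻ x : E (m + 1),
            ‖wave (randomised φ b (fun n => g n ω) u₀)
              (randomised φ b (fun n => g n ω) u₁) t x‖ₑ ^ p) ∂P ≤
            ENNReal.ofReal (C * A ^ p) * (sobolev s p u₀ + sobolev (s - 1) p u₁)) ∧
    -- (2) the exponents of Q1 (`d = m + 1`), blocks with at most `A R^κ` points in `(-R, R)^m`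
    (∀ (m : ℕ) (p σ κ : ℝ), 0 < m → 2 < p → p ≤ 4 → σ < 1 / p → 0 ≤ κ →
      κ ≤ m - 2 / (p - 2) →
      ∀ φ : 𝓢(E m, ℂ), HasCompactSupport (φ : E m → ℂ) →
      ∃ C : ℝ, 0 < C ∧ ∀ (b : (Fin m → ℤ) → ℕ) (A : ℝ), 0 ≤ A →
        (∀ n R : ℕ, 1 ≤ R → ((part b n R).ncard : ℝ) ≤ A * (R : ℝ) ^ κ) →
        ∀ (Ω : Type) [MeasurableSpace Ω] (P : Measure Ω) [IsProbabilityMeasure P]
          (g : ℕ → Ω → ℂ), Coefficients P p g →
        ∀ u₀ u₁ : 𝓢(E (m + 1), ℂ),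
          ∫⁻ ω, (∫⁻ t in Set.Icc (1 : ℝ) 2, ∫⁻ x : E (m + 1),
            ‖wave (randomised φ b (fun n => g n ω) u₀)
              (randomised φ b (fun n => g n ω) u₁) t x‖ₑ ^ p) ∂P ≤
            ENNReal.ofReal (C * A ^ (p / 2 - 1)) *
              (sobolev ((m : ℝ) / 2 - m / p - σ) p u₀ +
                sobolev ((m : ℝ) / 2 - m / p - 1 - σ) p u₁)) := by
  have hLLV := Pool.Agent.K9h71.RD.t_llv Pool.Agent.N764.LS.PD.t_pd Pool.Agent.N562.LS.t_bw
  have hENL := Pool.Agent.K9h96.LS.ENL.t (Pool.Agent.K9h96.LS.LOC.t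
    (Pool.Agent.K9h96.LS.PR.t (Pool.Agent.K9h96.LS.VVP.t Pool.Agent.K9h96.LS.VV4.t))
      (Pool.Agent.K9h96.LS.FS.t Pool.Agent.N362.LS.t_ena Pool.Agent.N303.LS.t_enb))
  have hBP := Pool.Agent.N303.LS.bp Pool.Agent.N558.LS.t_mul Pool.Agent.N413.LSBES.t_bes
  have hLPS := Pool.Agent.K9h71.RD.t_lps
    (Pool.Agent.N297.LPK.t_lpk (Pool.Agent.N441.LS.t_lpa Pool.Agent.N558.LS.t_mul))
  have h1 : ∀ (m : ℕ) (p θ s : ℝ), 0 < m → 2 ≤ p → p ≤ 4 → 0 ≤ θ → θ < s →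
      ∀ φ : 𝓢(E m, ℂ), HasCompactSupport (φ : E m → ℂ) →
      ∃ C : ℝ, 0 < C ∧ ∀ (b : (Fin m → ℤ) → ℕ) (A : ℝ), 0 ≤ A →
        (∀ n R : ℕ, 1 ≤ R → IsLambdaSet p (A * (R : ℝ) ^ θ) (part b n R)) →
        ∀ (Ω : Type) [MeasurableSpace Ω] (P : Measure Ω) [IsProbabilityMeasure P]
          (g : ℕ → Ω → ℂ), Coefficients P p g →
        ∀ u₀ u₁ : 𝓢(E (m + 1), ℂ),
          ∫⁻ ω, (∫⁻ t in Set.Icc (0 : ℝ) 2, ∫⁻ x : E (m + 1),
            ‖wave (randomised φ b (fun n => g n ω) u₀)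
              (randomised φ b (fun n => g n ω) u₁) t x‖ₑ ^ p) ∂P ≤
            ENNReal.ofReal (C * A ^ p) * (sobolev s p u₀ + sobolev (s - 1) p u₁) := by
    intro m p θ s hm hp hp4 hθ hs φ hφ
    obtain ⟨C, hC, h⟩ := Pool.Agent.K9h71.RC.main hLLV hENL hLPS hBP Pool.Agent.N558.LS.t_mul
      Pool.Agent.K9h71.RD.t_mz m hm p θ s hp hp4 hθ hs φ hφ
    refine ⟨C, hC, ?_⟩
    intro b A hA hb Ω mΩ P iP g hg u₀ u₁
    exact h b A hA hb Ω mΩ P iP g hg.measurable hg.indep hg.mean hg.moment u₀ u₁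
  refine ⟨h1, ?_⟩
  intro m p σ κ hm hp2 hp4 hσ hκ0 hκ φ hφ
  have hp0 : 0 < p := by linarith
  have hp20 : 0 < p - 2 := by linarith
  have hfac : 0 ≤ (1 : ℝ) / 2 - 1 / p := by
    rw [sub_nonneg]
    exact one_div_le_one_div_of_le (by norm_num) hp2.le
  have hθs : κ * (1 / 2 - 1 / p) < (m : ℝ) / 2 - m / p - σ := by
    have e1 : κ * (1 / 2 - 1 / p) ≤ (m - 2 / (p - 2)) * (1 / 2 - 1 / p) :=
      mul_le_mul_of_nonneg_right hκ hfac
    have e2 : ((m : ℝ) - 2 / (p - 2)) * (1 / 2 - 1 / p) = (m : ℝ) / 2 - m / p - 1 / p := by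
      field_simp
    linarith
  obtain ⟨C, hC, h⟩ := h1 m p (κ * (1 / 2 - 1 / p)) ((m : ℝ) / 2 - m / p - σ) hm hp2.le hp4
    (mul_nonneg hκ0 hfac) hθs φ hφ
  refine ⟨C * 2 ^ m, by positivity, ?_⟩
  intro b A hA hb Ω mΩ P iP g hg u₀ u₁
  have hL : ∀ n R : ℕ, 1 ≤ R → IsLambdaSet p
      (((2 : ℝ) ^ m * A ^ (p / 2 - 1)) ^ (1 / p) * (R : ℝ) ^ (κ * (1 / 2 - 1 / p))) (part b n R) :=
    fun n R hR => Pool.Agent.K9h71.RD.lamset_card m p A κ hp2.le hA {k | b k = n} (hb n) R hR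
  have e : C * (((2 : ℝ) ^ m * A ^ (p / 2 - 1)) ^ (1 / p)) ^ p = C * 2 ^ m * A ^ (p / 2 - 1) := by
    rw [← Real.rpow_mul (by positivity), one_div_mul_cancel hp0.ne', Real.rpow_one]
    ring
  have ht := h b _ (by positivity) hL Ω P g hg u₀ u₁
  rw [e] at ht
  have e4 : (m : ℝ) / 2 - m / p - σ - 1 = (m : ℝ) / 2 - m / p - 1 - σ := by ring
  rw [e4] at ht
  refine le_trans (lintegral_mono fun ω => ?_) ht
  exact lintegral_mono_set (Set.Icc_subset_Icc (by norm_num) le_rfl)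

end Pool.Agent.Results.MP_ee74d2_an.RandomisedCylinders
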