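import Pool.Agent.K9h71.RD.Main
import Pool.Agent.K9h71.RD.LPS
import Pool.Agent.K9h71.RD.CRD
import Pool.Agent.K9h71.RD.MZ
import Pool.Agent.N441.LS.LPA
import Pool.Agent.N297.LS.Lpk
import Pool.Agent.N558.LS.MUL
import Pool.Agent.N413.LS.BES
import Pool.Agent.N764.LS.PD
import Pool.Agent.N562.LS.BW
import Pool.Agent.N362.LS.ENA
import Pool.Agent.N914.LS.ENB
import Pool.Agent.N655.LS.EN
import Pool.Agent.N287.LS.YOU

set_option autoImplicit false

/-!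
# The estimate of Q1 for randomised data

Let `φ` be a smooth function with compact support on `ℝ^d` (for instance one with
`∑_m φ(ξ - m) = 1`, `m ∈ ℤ^d`), let `ℤ^d` be partitioned into blocks `{b = n}`, `n ∈ ℕ`, and let
`g_0, g_1, …` be independent complex random variables with mean `0` and `E|g_n|^p ≤ 1` (random signs
or Gaussian variables, for instance). The randomisation of a Schwartz function `f` is

`f^ω = ∑_m g_{b(m)}(ω) φ(D - m) f`,

so all unit frequency cells of a block get the same random coefficient. Let `u^ω` be the solution of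
the wave equation with the data `u₀^ω, u₁^ω`.

**(1)** If for all `R ≥ 1` the part of each block in `(-R, R)^d` is a `Λ(p)` set with constant at most
`A R^θ`, `θ < s`, then for `0 ≤ t ≤ 2`

`E ‖u^ω(t)‖_p^p ≤ C A^p (‖u₀‖_{L^p_s}^p + ‖u₁‖_{L^p_{s-1}}^p)`,

with `C = C(d, p, θ, s, φ)`.

**(2)** In particular the estimate of Q1 holds in the mean for all `d ≥ 2`, `p ≥ 2d/(d-1)`,
`σ < 1/p`, if each block has at most `A R^κ` points in `(-R, R)^d`, where
`κ ≤ d - 1 - 2/(p - 2)` (this bound is `0` for `p = 2d/(d-1)`, `(d-1)/2` for `p = 2(d+1)/(d-1)` and tends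
to `d - 1` for `p → ∞`).

Proof. By Khintchine's inequality one has to bound the `L^p` norm of the square function of the
blocks of `u(t)`. In a unit ball around `z` the blocks of `u(t)` are superpositions of modulations of
trigonometric polynomials with frequencies in the blocks, and the `ℓ²` norm of all the coefficients is
at most the square root of the local energy of `u(t)` at `z` (Bessel's inequality). By Minkowski's
inequality in `L^(p/2)` the `L^p` norm of the square function in the ball is at most the largest `Λ(p)`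
constant times this, and the local energy of `u(t)` is at most a constant times that of the data. Then
Young's inequality, and summation over the dyadic shells, on which the Bessel potentials gain
`2^(-ks)`.

The parts on the local energy, the multipliers and the Bessel potentials are from the library of the
starting files (project LS of helper303 with helper170, helper262, helper287, helper297, helper362,
helper413, helper441, helper492, helper558, helper562, helper655, helper764, helper914).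
Khintchine's inequality (S_MZ): helper21. The rest: helper71.
-/

open MeasureTheory ProbabilityTheory
open scoped ENNReal FourierTransform RealInnerProductSpace SchwartzMap

namespace Pool.Agent.Results.MP_ee74d2_an.RandomisedData

/-- `ℝ^d` -/
abbrev E (d : ℕ) : Type := EuclideanSpace ℝ (Fin d)

/-- The inverse Fourier transform `∫ exp(2πi x·ξ) F(ξ) dξ`. -/
noncomputable def inv {d : ℕ} (F : E d → ℂ) (x : E d) : ℂ :=
  ∫ ξ : E d, Complex.exp (((2 * Real.pi * ⟪x, ξ⟫ : ℝ) : ℂ) * Complex.I) * F ξ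

/-- The solution `u(t, x)` of the wave equation on `ℝ^d` for which `F₀` and `F₁` are the Fourier
transforms of `u(0)` and `∂ₜu(0)`: the inverse Fourier transform of
`cos(2πt|ξ|) F₀(ξ) + sin(2πt|ξ|)/(2π|ξ|) F₁(ξ)`. -/
noncomputable def wave {d : ℕ} (F₀ F₁ : E d → ℂ) (t : ℝ) (x : E d) : ℂ :=
  inv (fun ξ => ((Real.cos (2 * Real.pi * t * ‖ξ‖) : ℝ) : ℂ) * F₀ ξ +
    ((Real.sin (2 * Real.pi * t * ‖ξ‖) / (2 * Real.pi * ‖ξ‖) : ℝ) : ℂ) * F₁ ξ) x

/-- The symbol `(1 + 4π²|ξ|²)^(a/2)` of `(I - Δ)^(a/2)`. -/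
noncomputable def bessel {d : ℕ} (a : ℝ) (ξ : E d) : ℂ :=
  (((1 + 4 * Real.pi ^ 2 * ‖ξ‖ ^ 2) ^ (a / 2) : ℝ) : ℂ)

/-- `‖f‖^p` for the norm of `L^p_a`: the integral of `|(I - Δ)^(a/2) f|^p`. -/
noncomputable def sobolev {d : ℕ} (a p : ℝ) (f : 𝓢(E d, ℂ)) : ℝ≥0∞ :=
  ∫⁻ x : E d, ‖inv (fun ξ => bessel a ξ * 𝓕 (f : E d → ℂ) ξ) x‖ₑ ^ p

/-- `S` is a `Λ(p)` set with constant `Λ`: for all finite subsets `T` of `S` and all coefficients,
`∫_{[0,1)^d} |∑_{m ∈ T} c_m exp(2πi x·m)|^p dx ≤ Λ^p (∑_{m ∈ T} |c_m|²)^(p/2)`. -/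
def IsLambdaSet {d : ℕ} (p Λ : ℝ) (S : Set (Fin d → ℤ)) : Prop :=
  ∀ T : Finset (Fin d → ℤ), (T : Set (Fin d → ℤ)) ⊆ S → ∀ c : (Fin d → ℤ) → ℂ,
    ∫⁻ x in {x : E d | ∀ i, x i ∈ Set.Ico (0 : ℝ) 1}, ‖∑ m ∈ T, c m *
      Complex.exp (((2 * Real.pi * ⟪x, WithLp.toLp 2 fun i => (m i : ℝ)⟫ : ℝ) : ℂ) *
        Complex.I)‖ₑ ^ p ≤
      ENNReal.ofReal (Λ ^ p) * (∑ m ∈ T, ‖c m‖ₑ ^ (2 : ℝ)) ^ (p / 2)

/-- The points in `(-R, R)^d` of the block `n` of the partition of `ℤ^d` given by `b`. -/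
def part {d : ℕ} (b : (Fin d → ℤ) → ℕ) (n R : ℕ) : Set (Fin d → ℤ) :=
  {m | b m = n ∧ ∀ i, |m i| < R}

/-- The Fourier transform of `∑_m a_{b(m)} φ(D - m) f`, `m ∈ ℤ^d`. -/
noncomputable def randomised {d : ℕ} (φ : 𝓢(E d, ℂ)) (b : (Fin d → ℤ) → ℕ) (a : ℕ → ℂ)
    (f : 𝓢(E d, ℂ)) (ξ : E d) : ℂ :=
  (∑' m : Fin d → ℤ, a (b m) * φ (ξ - WithLp.toLp 2 fun i => (m i : ℝ))) * 𝓕 (f : E d → ℂ) ξ

/-- `g_0, g_1, …` are independent random variables with mean `0` and `E|g_n|^p ≤ 1`. -/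
structure Coefficients {Ω : Type} [MeasurableSpace Ω] (P : Measure Ω) (p : ℝ)
    (g : ℕ → Ω → ℂ) : Prop where
  measurable : ∀ n, Measurable (g n)
  indep : iIndepFun g P
  mean : ∀ n, ∫ ω, g n ω ∂P = 0
  moment : ∀ n, ∫⁻ ω, ‖g n ω‖ₑ ^ p ∂P ≤ 1

/-- **The estimate of Q1 for randomised data.** -/
theorem result :
    -- (1) each fixed time, blocks which are `Λ(p)` sets
    (∀ (d : ℕ) (p θ s : ℝ), 2 ≤ p → 0 ≤ θ → θ < s →
      ∀ φ : 𝓢(E d, ℂ), HasCompactSupport (φ : E d → ℂ) →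
      ∃ C : ℝ, 0 < C ∧ ∀ (b : (Fin d → ℤ) → ℕ) (A : ℝ), 0 ≤ A →
        (∀ n R : ℕ, 1 ≤ R → IsLambdaSet p (A * (R : ℝ) ^ θ) (part b n R)) →
        ∀ (Ω : Type) [MeasurableSpace Ω] (P : Measure Ω) [IsProbabilityMeasure P]
          (g : ℕ → Ω → ℂ), Coefficients P p g →
        ∀ (u₀ u₁ : 𝓢(E d, ℂ)) (t : ℝ), 0 ≤ t → t ≤ 2 →
          ∫⁻ ω, (∫⁻ x : E d, ‖wave (randomised φ b (fun n => g n ω) u₀)
            (randomised φ b (fun n => g n ω) u₁) t x‖ₑ ^ p) ∂P ≤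
            ENNReal.ofReal (C * A ^ p) * (sobolev s p u₀ + sobolev (s - 1) p u₁)) ∧
    -- (2) the exponents of Q1, blocks with at most `A R^κ` points in `(-R, R)^d`
    (∀ (d : ℕ) (p σ κ : ℝ), 2 ≤ d → 2 * d / (d - 1) ≤ p → σ < 1 / p → 0 ≤ κ →
      κ ≤ d - 1 - 2 / (p - 2) →
      ∀ φ : 𝓢(E d, ℂ), HasCompactSupport (φ : E d → ℂ) →
      ∃ C : ℝ, 0 < C ∧ ∀ (b : (Fin d → ℤ) → ℕ) (A : ℝ), 0 ≤ A →
        (∀ n R : ℕ, 1 ≤ R → ((part b n R).ncard : ℝ) ≤ A * (R : ℝ) ^ κ) →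
        ∀ (Ω : Type) [MeasurableSpace Ω] (P : Measure Ω) [IsProbabilityMeasure P]
          (g : ℕ → Ω → ℂ), Coefficients P p g →
        ∀ u₀ u₁ : 𝓢(E d, ℂ),
          ∫⁻ t in Set.Icc (1 : ℝ) 2, ∫⁻ ω, (∫⁻ x : E d,
            ‖wave (randomised φ b (fun n => g n ω) u₀)
              (randomised φ b (fun n => g n ω) u₁) t x‖ₑ ^ p) ∂P ≤
            ENNReal.ofReal (C * A ^ (p / 2 - 1)) *
              (sobolev ((d - 1) / 2 - (d - 1) / p - σ) p u₀ +
                sobolev ((d - 1) / 2 - (d - 1) / p - 1 - σ) p u₁)) := by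
  have hEN := Pool.Agent.N655.LS.t_en Pool.Agent.N362.LS.t_ena Pool.Agent.N303.LS.t_enb
  have hLLV := Pool.Agent.K9h71.RD.t_llv Pool.Agent.N764.LS.PD.t_pd Pool.Agent.N562.LS.t_bw
  have hBP := Pool.Agent.N303.LS.bp Pool.Agent.N558.LS.t_mul Pool.Agent.N413.LSBES.t_bes
  have hLPS := Pool.Agent.K9h71.RD.t_lps
    (Pool.Agent.N297.LPK.t_lpk (Pool.Agent.N441.LS.t_lpa Pool.Agent.N558.LS.t_mul))
  have h1 : ∀ (d : ℕ) (p θ s : ℝ), 2 ≤ p → 0 ≤ θ → θ < s →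
      ∀ φ : 𝓢(E d, ℂ), HasCompactSupport (φ : E d → ℂ) →
      ∃ C : ℝ, 0 < C ∧ ∀ (b : (Fin d → ℤ) → ℕ) (A : ℝ), 0 ≤ A →
        (∀ n R : ℕ, 1 ≤ R → IsLambdaSet p (A * (R : ℝ) ^ θ) (part b n R)) →
        ∀ (Ω : Type) [MeasurableSpace Ω] (P : Measure Ω) [IsProbabilityMeasure P]
          (g : ℕ → Ω → ℂ), Coefficients P p g →
        ∀ (u₀ u₁ : 𝓢(E d, ℂ)) (t : ℝ), 0 ≤ t → t ≤ 2 →
          ∫⁻ ω, (∫⁻ x : E d, ‖wave (randomised φ b (fun n => g n ω) u₀)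
            (randomised φ b (fun n => g n ω) u₁) t x‖ₑ ^ p) ∂P ≤
            ENNReal.ofReal (C * A ^ p) * (sobolev s p u₀ + sobolev (s - 1) p u₁) := by
    intro d p θ s hp hθ hs φ hφ
    obtain ⟨C, hC, h⟩ := Pool.Agent.K9h71.RD.main hEN Pool.Agent.N287.LS.t_you hLLV hLPS hBP
      Pool.Agent.K9h71.RD.t_mz d p θ s hp hθ hs φ hφ
    refine ⟨C, hC, ?_⟩
    intro b A hA hb Ω mΩ P iP g hg u₀ u₁ t h0 h2
    exact h b A hA hb Ω mΩ P iP g hg.measurable hg.indep hg.mean hg.moment u₀ u₁ t h0 h2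
  refine ⟨h1, ?_⟩
  intro d p σ κ hd hp hσ hκ0 hκ φ hφ
  have hd' : (2 : ℝ) ≤ d := by exact_mod_cast hd
  have hd1 : (0 : ℝ) < d - 1 := by linarith
  have hp2 : 2 < p := by
    refine lt_of_lt_of_le ?_ hp
    rw [lt_div_iff₀ hd1]
    linarith
  have hp0 : 0 < p := by linarith
  have hp20 : 0 < p - 2 := by linarith
  have hfac : 0 ≤ (1 : ℝ) / 2 - 1 / p := by
    rw [sub_nonneg]
    exact one_div_le_one_div_of_le (by norm_num) hp2.le
  have hθs : κ * (1 / 2 - 1 / p) < (d - 1) / 2 - (d - 1) / p - σ := by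
    have e1 : κ * (1 / 2 - 1 / p) ≤ (d - 1 - 2 / (p - 2)) * (1 / 2 - 1 / p) :=
      mul_le_mul_of_nonneg_right hκ hfac
    have e2 : ((d : ℝ) - 1 - 2 / (p - 2)) * (1 / 2 - 1 / p) = (d - 1) / 2 - (d - 1) / p - 1 / p := by
      field_simp
    linarith
  obtain ⟨C, hC, h⟩ := h1 d p (κ * (1 / 2 - 1 / p)) ((d - 1) / 2 - (d - 1) / p - σ) hp2.le
    (mul_nonneg hκ0 hfac) hθs φ hφ
  refine ⟨C * 2 ^ d, by positivity, ?_⟩
  intro b A hA hb Ω mΩ P iP g hg u₀ u₁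
  have hL : ∀ n R : ℕ, 1 ≤ R → IsLambdaSet p
      (((2 : ℝ) ^ d * A ^ (p / 2 - 1)) ^ (1 / p) * (R : ℝ) ^ (κ * (1 / 2 - 1 / p))) (part b n R) :=
    fun n R hR => Pool.Agent.K9h71.RD.lamset_card d p A κ hp2.le hA {m | b m = n} (hb n) R hR
  have e : C * (((2 : ℝ) ^ d * A ^ (p / 2 - 1)) ^ (1 / p)) ^ p = C * 2 ^ d * A ^ (p / 2 - 1) := by
    rw [← Real.rpow_mul (by positivity), one_div_mul_cancel hp0.ne', Real.rpow_one]
    ring
  have ht := fun (t : ℝ) (h0 : 0 ≤ t) (h2 : t ≤ 2) =>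
    h b _ (by positivity) hL Ω P g hg u₀ u₁ t h0 h2
  rw [e] at ht
  have e4 : ((d : ℝ) - 1) / 2 - (d - 1) / p - σ - 1 = (d - 1) / 2 - (d - 1) / p - 1 - σ := by ring
  rw [e4] at ht
  calc ∫⁻ t in Set.Icc (1 : ℝ) 2, ∫⁻ ω, (∫⁻ x : E d,
            ‖wave (randomised φ b (fun n => g n ω) u₀)
              (randomised φ b (fun n => g n ω) u₁) t x‖ₑ ^ p) ∂P ≤
      ∫⁻ _t in Set.Icc (1 : ℝ) 2, ENNReal.ofReal (C * 2 ^ d * A ^ (p / 2 - 1)) *
              (sobolev ((d - 1) / 2 - (d - 1) / p - σ) p u₀ +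
                sobolev ((d - 1) / 2 - (d - 1) / p - 1 - σ) p u₁) := by
        refine setLIntegral_mono' measurableSet_Icc fun t ht' => ?_
        exact ht t (by linarith [ht'.1]) ht'.2
    _ = _ := by
        rw [setLIntegral_const, Real.volume_Icc]
        norm_num

end Pool.Agent.Results.MP_ee74d2_an.RandomisedData
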